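import Pool.Agent.Helper58.R3.Stmts

open Classical

namespace Pool.Agent.Helper58.R3

/-- SL: the single leaf theorem. -/
theorem st_SL (h1 : ST_KEX) (h2 : ST_LYF) (h3 : ST_R1) (h4 : ST_R2) (h5 : ST_CA) (h6 : ST_CB)
    (h7 : ST_CS) (h8 : ST_BS) (h9 : ST_TZ) (h10 : ST_BF) : ST_SL := by
  intro m H v0 Z ψ hK hW hZ hD hN
  obtain ⟨k, hs⟩ := h1 m H v0 Z ψ hK hW hZ hD hN
  obtain ⟨L1, L2, L3, L4, L5, L6, L7, L8, L9, L10, L11⟩ := h2 m H v0 Z ψ k hs
  have nbZ : ∀ x, x ∈ nb H Z → x ∉ Z := fun x hx => (Finset.mem_filter.mp hx).2.1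
  have hkZ : ψ^[k] v0 ∈ Z := hs.kl.1
  by_cases hall : ∀ d ∈ nb H Z, H.Adj (ψ^[k] v0) d
  · exact Or.inl ⟨_, hkZ, hall⟩
  push Not at hall
  obtain ⟨d, hd, hnd⟩ := hall
  have hnP : ¬ Per Z ψ d := fun hp => hnd ((h3 m H v0 Z ψ k hs).1 d hd hp).1
  have hlt : ∀ j ≤ k, ψ^[j] v0 ∈ nb H Z → j < k := by
    intro j hj hjn
    rcases Nat.lt_or_ge j k with h | h
    · exact h
    · have he : j = k := le_antisymm hj h
      rw [he] at hjn
      exact absurd hkZ (nbZ _ hjn)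
  have hne : ∀ j ≤ k, d ≠ ψ^[j] v0 := by
    intro j hj he
    have hd' : ψ^[j] v0 ∈ nb H Z := by rw [← he]; exact hd
    have hjk := hlt j hj hd'
    have hl : Lay Z ψ (k - j) (ψ^[j] v0) := L6 j hj
    have hmod : (k - j) % (k + 1) = k - j := Nat.mod_eq_of_lt (by omega)
    have h := h4 m H v0 Z ψ k hs (ψ^[j] v0) hd' (k - j) hl (by rw [hmod]; omega)
    rw [hmod, show k - (k - j) = j by omega] at h
    rw [← he] at h
    exact hnd h.1
  obtain ⟨j, hj, hjn⟩ := h5 m H v0 Z ψ k hs ⟨d, hd, hnP⟩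
  have hjk := hlt j hj hjn
  have ej : k - (k - j) = j := by omega
  by_cases hex : ∃ j' ≤ k, j' ≠ j ∧ ψ^[j'] v0 ∈ nb H Z
  · obtain ⟨j', hj', hjj, hjn'⟩ := hex
    have hjk' := hlt j' hj' hjn'
    have ej' : k - (k - j') = j' := by omega
    have hb : B2 H v0 Z ψ k (k - j) (k - j') d :=
      h8 m H v0 Z ψ k (k - j) (k - j') d hs (by omega) (by omega) (by omega) (by omega)
        (by omega) (by rw [ej]; exact hjn) (by rw [ej']; exact hjn') hd hnP hne
    have hb' : B2 H v0 Z ψ k (k - j') (k - j) d :=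
      h8 m H v0 Z ψ k (k - j') (k - j) d hs (by omega) (by omega) (by omega) (by omega)
        (by omega) (by rw [ej']; exact hjn') (by rw [ej]; exact hjn) hd hnP hne
    rcases L1 d with ⟨t, ht⟩ | hp
    · rcases h9 m H v0 Z ψ k _ _ d hb t ht with h | h
      · rw [h] at ht
        exact Or.inr (h10 m H v0 Z ψ k _ _ d hb ht)
      · rw [h] at ht
        exact Or.inr (h10 m H v0 Z ψ k _ _ d hb' ht)
    · exact absurd hp hnP
  · push Not at hex
    have hk1 : k = 1 := h6 m H v0 Z ψ k (k - j) d hs (by omega) (by omega)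
      (by rw [ej]; exact hjn) (by
        intro i hi hin
        by_contra hc
        exact hex i hi (by omega) hin) hd hnP hne
    subst hk1
    have hj0 : j = 0 := by omega
    subst hj0
    have hv0 : v0 ∈ nb H Z := hjn
    by_cases hz : ∀ z ∈ Z, H.Adj v0 z → z = ψ v0
    · exact Or.inl ⟨ψ v0, hkZ, h7 m H v0 Z ψ hs hv0 hz⟩
    · push Not at hz
      obtain ⟨z, hzZ, hza, hzn⟩ := hz
      have hl : Lay Z ψ 1 v0 := hs.kl
      have h := h4 m H v0 Z ψ 1 hs v0 hv0 1 hl (by norm_num)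
      have h' : H.Adj (ψ v0) v0 := h.1
      exact Or.inr ⟨hv0, ψ v0, hkZ, z, hzZ, fun e => hzn e.symm, h'.symm, hza⟩

end Pool.Agent.Helper58.R3
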